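import Pool.Agent.Y4.P.Jobs

/-!
# Complex structures come from complex vector spaces
-/

namespace Pool.Agent.Y317.P.Cht

open Matrix Module Pool.Agent.Y90

set_option linter.unusedSectionVars false

noncomputable section

variable {B : Type} [Fintype B] [DecidableEq B]

/-- The map `v ↦ J v` on complex vectors. -/
def jc (J : Matrix B B ℝ) : (B → ℂ) →ₗ[ℂ] (B → ℂ) :=
  Matrix.mulVecLin (J.map (fun x : ℝ => (x : ℂ)))

/-- The eigenspace for the eigenvalue `i`. -/
def TT (J : Matrix B B ℝ) : Submodule ℂ (B → ℂ) := LinearMap.ker (jc J - Complex.I • LinearMap.id)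

theorem mem_TT {J : Matrix B B ℝ} {v : B → ℂ} : v ∈ TT J ↔ jc J v = Complex.I • v := by
  unfold TT
  rw [LinearMap.mem_ker, LinearMap.sub_apply, LinearMap.smul_apply, LinearMap.id_apply,
    sub_eq_zero]

/-- The coercion. -/
def rc (x : B → ℝ) : B → ℂ := fun i => ((x i : ℝ) : ℂ)

theorem jc_rc (J : Matrix B B ℝ) (x : B → ℝ) : jc J (rc x) = rc (J *ᵥ x) := by
  funext i
  unfold jc rc
  rw [Matrix.mulVecLin_apply]
  simp only [Matrix.mulVec, dotProduct, Matrix.map_apply]
  push_cast
  rfl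

theorem rc_add (x y : B → ℝ) : rc (x + y) = rc x + rc y := by
  funext i
  simp [rc]

theorem rc_smul (a : ℝ) (x : B → ℝ) : rc (a • x) = (a : ℂ) • rc x := by
  funext i
  simp [rc]

theorem rc_neg (x : B → ℝ) : rc (-x) = - rc x := by
  funext i
  simp [rc]

theorem jj {J : Matrix B B ℝ} (h : J * J = -1) (x : B → ℝ) : J *ᵥ (J *ᵥ x) = -x := by
  rw [Matrix.mulVec_mulVec, h, Matrix.neg_mulVec, Matrix.one_mulVec]

theorem mem_p {J : Matrix B B ℝ} (h : J * J = -1) (x : B → ℝ) :
    rc x - Complex.I • rc (J *ᵥ x) ∈ TT J := by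
  rw [mem_TT, map_sub, map_smul, jc_rc, jc_rc, jj h, rc_neg, smul_sub, smul_neg, smul_smul,
    Complex.I_mul_I, neg_one_smul, sub_neg_eq_add, sub_neg_eq_add, add_comm]

/-- The projection. -/
def pp {J : Matrix B B ℝ} (h : J * J = -1) : (B → ℝ) →ₗ[ℝ] TT J where
  toFun x := ⟨rc x - Complex.I • rc (J *ᵥ x), mem_p h x⟩
  map_add' x y := by
    apply Subtype.ext
    change rc (x + y) - Complex.I • rc (J *ᵥ (x + y)) = (rc x - Complex.I • rc (J *ᵥ x)) +
      (rc y - Complex.I • rc (J *ᵥ y))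
    rw [Matrix.mulVec_add, rc_add, rc_add, smul_add]
    abel
  map_smul' a x := by
    apply Subtype.ext
    change rc (a • x) - Complex.I • rc (J *ᵥ (a • x)) =
      a • (rc x - Complex.I • rc (J *ᵥ x))
    rw [Matrix.mulVec_smul, rc_smul, rc_smul, smul_sub]
    congr 1
    rw [smul_comm]
    rfl

/-- The real part. -/
def ii (J : Matrix B B ℝ) : TT J →ₗ[ℝ] (B → ℝ) where
  toFun t := fun i => ((t : B → ℂ) i).re
  map_add' x y := by
    funext i
    change ((x : B → ℂ) i + (y : B → ℂ) i).re = _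
    rw [Complex.add_re]
    rfl
  map_smul' a x := by
    funext i
    change ((a : ℝ) • (x : B → ℂ) i).re = _
    rw [Complex.smul_re]
    rfl

theorem x : Pool.Agent.Y4.P.JCht := by
  intro B _ _ J h
  refine ⟨TT J, inferInstance, inferInstance, inferInstance,
    (pp h).toAddMonoidHom.comp
      { toFun := fun w : B → ℚ => fun i => ((w i : ℚ) : ℝ)
        map_zero' := by funext i; simp
        map_add' := fun a b => by funext i; simp }, h, pp h, ii J, fun w => rfl, ?_, ?_, ?_⟩
  · intro x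
    apply Subtype.ext
    change rc (J *ᵥ x) - Complex.I • rc (J *ᵥ (J *ᵥ x)) =
      Complex.I • (rc x - Complex.I • rc (J *ᵥ x))
    rw [jj h, rc_neg, smul_sub, smul_neg, smul_smul, Complex.I_mul_I, neg_one_smul,
      sub_neg_eq_add, sub_neg_eq_add, add_comm]
  · intro x
    funext i
    change (rc x i - Complex.I * rc (J *ᵥ x) i).re = x i
    unfold rc
    simp
  · intro t
    apply Subtype.ext
    change rc (ii J t) - Complex.I • rc (J *ᵥ (ii J t)) = (t : B → ℂ)
    funext i
    have h1 : jc J (t : B → ℂ) = Complex.I • (t : B → ℂ) := mem_TT.1 t.2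
    have h2 := congrArg Complex.re (congrFun h1 i)
    have h3 : (jc J (t : B → ℂ) i).re = (J *ᵥ (ii J t)) i := by
      unfold jc
      rw [Matrix.mulVecLin_apply]
      simp only [Matrix.mulVec, dotProduct, Matrix.map_apply, Complex.re_sum]
      refine Finset.sum_congr rfl fun j _ => ?_
      rw [Complex.re_ofReal_mul]
      rfl
    rw [h3] at h2
    have h4 : (Complex.I • (t : B → ℂ)) i = Complex.I * (t : B → ℂ) i := rfl
    rw [h4, Complex.I_mul_re] at h2
    change ((((t : B → ℂ) i).re : ℝ) : ℂ) - Complex.I * (((J *ᵥ (ii J t)) i : ℝ) : ℂ) = _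
    rw [h2]
    apply Complex.ext <;> simp

end

end Pool.Agent.Y317.P.Cht
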