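import Pool.Agent.Y4.P.Jobs

/-!
# Finite Galois stable sets on which conjugation is central are contained in CM fields
-/

namespace Pool.Agent.Y317.P.Fld

open Polynomial Pool.Agent.Y90 Pool.Agent.H977R3.CM NumberField

/-- The polynomial of a finite set stable under automorphisms is rational. -/
theorem poly_rat (T : Finset ℂ) (hT : ∀ (σ : ℂ ≃+* ℂ), ∀ z ∈ T, σ z ∈ T) :
    ∃ q : ℚ[X], q.map (algebraMap ℚ ℂ) = ∏ t ∈ T, (X - C t) := by
  have h1 : ∀ σ : ℂ ≃+* ℂ, (∏ t ∈ T, (X - C t)).map (σ : ℂ →+* ℂ) = ∏ t ∈ T, (X - C t) := by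
    intro σ
    rw [Polynomial.map_prod]
    simp only [Polynomial.map_sub, Polynomial.map_X, Polynomial.map_C]
    refine Finset.prod_bij (fun t _ => σ t) (fun t ht => hT σ t ht)
      (fun a _ b _ h => σ.injective h) (fun b hb => ?_) (fun t _ => rfl)
    exact ⟨σ.symm b, hT σ.symm b hb, σ.apply_symm_apply b⟩
  have h2 : (∏ t ∈ T, (X - C t)) ∈ Polynomial.lifts (algebraMap ℚ ℂ) := by
    rw [Polynomial.lifts_iff_coeff_lifts]
    intro n
    obtain ⟨q, hq⟩ := exists_rat (z := (∏ t ∈ T, (X - C t)).coeff n) fun σ => by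
      conv_rhs => rw [← h1 σ]
      rw [Polynomial.coeff_map]
      rfl
    exact ⟨q, by rw [hq]; rfl⟩
  exact (Polynomial.mem_lifts _).1 h2

theorem x : Pool.Agent.Y4.P.JField := by
  intro T₀ hfin hst hcc
  classical
  set T : Finset ℂ := hfin.toFinset ∪ {Complex.I, -Complex.I} with hTd
  have hT₀ : ∀ z ∈ T₀, z ∈ T := fun z hz => by
    rw [hTd, Finset.mem_union]
    exact Or.inl (hfin.mem_toFinset.2 hz)
  have hI : ∀ σ : ℂ ≃+* ℂ, σ Complex.I = Complex.I ∨ σ Complex.I = -Complex.I := by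
    intro σ
    have h1 : σ Complex.I * σ Complex.I = -1 := by
      rw [← map_mul, Complex.I_mul_I, map_neg, map_one]
    have h2 : (σ Complex.I - Complex.I) * (σ Complex.I + Complex.I) = 0 := by
      have h3 := Complex.I_mul_I
      linear_combination h1 - h3
    rcases mul_eq_zero.1 h2 with h3 | h3
    · exact Or.inl (sub_eq_zero.1 h3)
    · exact Or.inr (eq_neg_of_add_eq_zero_left h3)
  have hIc : cc Complex.I = -Complex.I := Complex.conj_I
  have hst' : ∀ (σ : ℂ ≃+* ℂ), ∀ z ∈ T, σ z ∈ T := by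
    intro σ z hz
    rw [hTd, Finset.mem_union, Finset.mem_insert, Finset.mem_singleton] at hz ⊢
    rcases hz with hz | hz | hz
    · exact Or.inl (hfin.mem_toFinset.2 (hst σ z (hfin.mem_toFinset.1 hz)))
    · subst hz
      exact Or.inr (hI σ)
    · subst hz
      rw [map_neg]
      rcases hI σ with h | h
      · rw [h]; exact Or.inr (Or.inr rfl)
      · rw [h, neg_neg]; exact Or.inr (Or.inl rfl)
  have hcc' : ∀ (σ : ℂ ≃+* ℂ), ∀ z ∈ T, cc (σ z) = σ (cc z) := by
    intro σ z hz
    rw [hTd, Finset.mem_union, Finset.mem_insert, Finset.mem_singleton] at hz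
    rcases hz with hz | hz | hz
    · exact hcc σ z (hfin.mem_toFinset.1 hz)
    · subst hz
      rcases hI σ with h | h
      · rw [h, hIc, map_neg, h]
      · rw [hIc, map_neg, h, map_neg, hIc]
    · subst hz
      rcases hI σ with h | h
      · rw [map_neg σ, h, map_neg, hIc, neg_neg, h]
      · rw [map_neg σ, h, neg_neg, map_neg, hIc, neg_neg, h]
  obtain ⟨p, hp⟩ := poly_rat T hst'
  have hp0 : p ≠ 0 := by
    rintro rfl
    rw [Polynomial.map_zero] at hp
    exact (Finset.prod_ne_zero_iff.2 fun t _ => X_sub_C_ne_zero t) hp.symm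
  have hroot : ∀ z : ℂ, z ∈ p.rootSet ℂ ↔ z ∈ T := by
    intro z
    rw [Polynomial.mem_rootSet, ← Polynomial.eval_map_algebraMap, hp, Polynomial.eval_prod,
      Finset.prod_eq_zero_iff]
    constructor
    · rintro ⟨-, t, ht, h⟩
      rw [Polynomial.eval_sub, Polynomial.eval_X, Polynomial.eval_C, sub_eq_zero] at h
      rw [h]
      exact ht
    · intro h
      exact ⟨hp0, z, h, by rw [Polynomial.eval_sub, Polynomial.eval_X, Polynomial.eval_C,
        sub_self]⟩
  have hspl : (p.map (algebraMap ℚ ℂ)).Splits := IsAlgClosed.splits _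
  have hsf : p.IsSplittingField ℚ (IntermediateField.adjoin ℚ (p.rootSet ℂ)) :=
    IntermediateField.adjoin_rootSet_isSplittingField hspl
  let K := IntermediateField.adjoin ℚ (p.rootSet ℂ)
  have _ : Normal ℚ K := Normal.of_isSplittingField p
  have _ : FiniteDimensional ℚ K := Polynomial.IsSplittingField.finiteDimensional _ p
  have _ : IsGalois ℚ K := ⟨⟩
  have hsub : ∀ z ∈ T, z ∈ K := fun z hz =>
    IntermediateField.subset_adjoin ℚ _ ((hroot z).2 hz)
  have hIT : Complex.I ∈ T := by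
    rw [hTd, Finset.mem_union, Finset.mem_insert]
    exact Or.inr (Or.inl rfl)
  have hIK : Complex.I ∈ K := hsub _ hIT
  have hK : ∀ (σ : ℂ ≃+* ℂ), ∀ z ∈ K, cc (σ z) = σ (cc z) := by
    intro σ z hz
    refine IntermediateField.adjoin_induction ℚ (s := p.rootSet ℂ)
      (p := fun z _ => cc (σ z) = σ (cc z)) ?_ ?_ ?_ ?_ ?_ hz
    · intro x hx
      exact hcc' σ x ((hroot x).1 hx)
    · intro q
      rw [eq_ratCast (algebraMap ℚ ℂ) q, map_ratCast, map_ratCast, map_ratCast]
    · intro x y _ _ hx hy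
      rw [map_add, map_add, map_add, map_add, hx, hy]
    · intro x _ hx
      rw [map_inv₀, map_inv₀, map_inv₀, map_inv₀, hx]
    · intro x y _ _ hx hy
      rw [map_mul, map_mul, map_mul, map_mul, hx, hy]
  have hNF : NumberField K := { to_charZero := inferInstance, to_finiteDimensional := ‹_› }
  refine ⟨K, hNF, ?_, fun z hz => hsub z (hT₀ z hz)⟩
  have _ : IsTotallyComplex K := by
    refine ⟨fun v => ?_⟩
    rw [← InfinitePlace.not_isReal_iff_isComplex, InfinitePlace.isReal_iff]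
    intro h
    have h1 : (starRingEnd ℂ) (v.embedding ⟨Complex.I, hIK⟩) = v.embedding ⟨Complex.I, hIK⟩ :=
      RingHom.congr_fun h _
    have h2 : v.embedding ⟨Complex.I, hIK⟩ * v.embedding ⟨Complex.I, hIK⟩ = -1 := by
      rw [← map_mul, ← map_one v.embedding, ← map_neg]
      congr 1
      apply Subtype.ext
      exact Complex.I_mul_I
    obtain ⟨r, hr⟩ := Complex.conj_eq_iff_real.1 h1
    rw [hr] at h2
    have h3 : r * r = -1 := by exact_mod_cast h2
    nlinarith [mul_self_nonneg r]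
  let τ : ℂ ≃ₐ[ℚ] ℂ := Complex.conjAe.restrictScalars ℚ
  have hτ : ∀ z, τ z = cc z := fun z => rfl
  refine IsCMField.of_forall_isConj K (σ := τ.restrictNormal K) fun φ => ?_
  obtain ⟨ν, hν⟩ := ComplexEmbedding.exists_comp_symm_eq_of_comp_eq (k := ℚ)
    (algebraMap K ℂ) φ (by ext; simp)
  obtain ⟨σ, hσ⟩ := exists_aut (algebraMap K ℂ) (ν.symm : K ≃+* K)
  have hφ : ∀ z : K, φ z = σ (z : ℂ) := by
    intro z
    rw [← hν]
    exact (hσ z).symm
  refine RingHom.ext fun z => ?_
  change cc (φ z) = φ (τ.restrictNormal K z)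
  rw [hφ, hφ, show ((τ.restrictNormal K z : K) : ℂ) = cc (z : ℂ) from
    AlgEquiv.restrictNormal_commutes τ K z]
  exact hK σ z z.2

end Pool.Agent.Y317.P.Fld
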