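import Pool.Agent.Y4.P.Jobs

/-!
# Idempotent matrices over a field
-/

namespace Pool.Agent.Y317.P.Idem

open Matrix Module

theorem x : Pool.Agent.Y4.P.JIdem := by
  intro F _ n _ _ e he
  set f : (n → F) →ₗ[F] (n → F) := Matrix.toLin' e with hf
  have hff : ∀ v, f (f v) = f v := by
    intro v
    rw [hf, Matrix.toLin'_apply, Matrix.toLin'_apply, Matrix.mulVec_mulVec, he]
  let b : Basis (Fin (finrank F (LinearMap.range f))) F (LinearMap.range f) := finBasis F _
  refine ⟨finrank F (LinearMap.range f), Matrix.of fun i j => (b j : n → F) i,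
    Matrix.of fun j i => b.repr (f.rangeRestrict (Pi.single i 1)) j, ?_, ?_⟩
  · ext i j
    have h1 := b.sum_repr (f.rangeRestrict (Pi.single j 1))
    have h2 := congrArg (fun w : LinearMap.range f => (w : n → F) i) h1
    simp only [Submodule.coe_sum, Finset.sum_apply, Submodule.coe_smul, Pi.smul_apply,
      smul_eq_mul] at h2
    rw [show ((f.rangeRestrict (Pi.single j 1) : LinearMap.range f) : n → F) i =
      f (Pi.single j 1) i from rfl] at h2
    rw [Matrix.mul_apply]
    have h3 : f (Pi.single j 1) i = e i j := by
      rw [hf, Matrix.toLin'_apply, Matrix.mulVec_single_one]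
      rfl
    rw [← h3, ← h2]
    exact Finset.sum_congr rfl fun k _ => by simp only [Matrix.of_apply]; ring
  · ext k l
    rw [Matrix.mul_apply]
    simp only [Matrix.of_apply]
    have h1 : f.rangeRestrict (b l : n → F) = b l := by
      apply Subtype.ext
      obtain ⟨v, hv⟩ := (b l).2
      change f (b l : n → F) = _
      rw [← hv, hff]
    have h2 : (b l : n → F) = ∑ i, (b l : n → F) i • (Pi.single i (1 : F) : n → F) := by
      ext i
      simp [Finset.sum_apply, Pi.single_apply]
    have h3 : b.repr (f.rangeRestrict (b l : n → F)) k =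
        ∑ i, (b l : n → F) i * b.repr (f.rangeRestrict (Pi.single i 1)) k := by
      conv_lhs => rw [h2]
      rw [map_sum, map_sum, Finsupp.finsetSum_apply]
      exact Finset.sum_congr rfl fun i _ => by
        rw [map_smul, map_smul, Finsupp.smul_apply, smul_eq_mul]
    rw [h1, Basis.repr_self] at h3
    rw [Matrix.one_apply]
    rw [Finsupp.single_apply] at h3
    rw [show (if k = l then (1 : F) else 0) = if l = k then (1 : F) else 0 by
      simp only [eq_comm], h3]
    exact Finset.sum_congr rfl fun i _ => by ring

end Pool.Agent.Y317.P.Idem
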